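import Pool.Agent.Helper43.Inv.Main

namespace Pool.Agent.Results.MP_b9c098_an.FiveInvolutions

universe u

/-- Every invertible bounded operator on an infinite-dimensional complex Hilbert space is a
product of five involutions. -/
theorem result (H : Type u) [NormedAddCommGroup H] [InnerProductSpace ℂ H] [CompleteSpace H]
    (hH : ¬ FiniteDimensional ℂ H) (A : (H →L[ℂ] H)ˣ) :
    ∃ T : Fin 5 → (H →L[ℂ] H)ˣ, (∀ i, T i * T i = 1) ∧
      A = T 0 * T 1 * T 2 * T 3 * T 4 :=
  Pool.Agent.Helper43.Inv.main hH A

end Pool.Agent.Results.MP_b9c098_an.FiveInvolutions
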